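import Pool.Agent.X63.ArcComplete2

/-!
`K_m` is an arc `k`-visibility graph for all `m ≤ 5 k + 6`.
-/

set_option autoImplicit false

namespace Pool.Agent.Results.MP_f47cd5_co.CompleteArc

open Pool.Agent.X63 Pool.Agent.X63.SA Pool.Agent.X63.AC

/-- For every `k` and every `m ≤ 5 k + 6` the complete graph on `m` vertices is an arc
`k`-visibility graph. -/
theorem result : ∀ k m : ℕ, m ≤ 5 * k + 6 → IsArcVis k (⊤ : SimpleGraph (Fin m)) := by
  intro k m hm
  refine ⟨fun w => w.val + 1, fun w => lw k w.val, fun w => up k w.val, fun v => ⟨by positivity,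
    lw_nonneg k v.val, lt_of_le_of_lt (lw_le_up k v.val) (up_lt k v.val),
    by have := lw_le_up k v.val; linarith,
    by have := lw_nonneg k v.val; have := up_lt k v.val; linarith⟩, ?_, ?_⟩
  · intro u v huv
    rw [Set.disjoint_left]
    rintro p ⟨φ, h0, h1, rfl⟩ ⟨ψ, g0, g1, h⟩
    have hu := up_lt k u.val
    have hv := up_lt k v.val
    have hu' := lw_nonneg k u.val
    have hv' := lw_nonneg k v.val
    obtain ⟨e, _⟩ := rayPt_inj _ _ _ _ (by positivity) (by positivity) (by linarith)
      (by linarith) (by linarith) (by linarith) h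
    apply huv
    have e' : (u.val : ℝ) = v.val := by linarith
    exact Fin.ext (by exact_mod_cast e')
  · intro u v huv
    refine ⟨fun _ => ?_, fun _ => (SimpleGraph.top_adj u v).mpr huv⟩
    let ι : Fin m → Fin (5 * k + 6) := Fin.castLE hm
    have hι : Function.Injective ι := Fin.castLE_injective hm
    have key : ∀ x y : Fin m, x < y → RadVis
        (fun w : Fin m => arcSet ((w.val : ℝ) + 1) (lw k w.val) (up k w.val)) k x y := by
      intro x y hxy
      obtain ⟨s₁, s₂, b₁, b₂, h1, h2, h3, h4, h5, h6, h7⟩ := vis_lt k (ι x) (ι y) hxy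
      refine ⟨s₁, s₂, b₁, b₂, h1, h2, h3, h4, h5, h6, le_trans ?_ h7⟩
      rw [← Set.ncard_image_of_injective _ hι]
      apply Set.ncard_le_ncard _ (Set.toFinite _)
      rintro _ ⟨w, ⟨w1, w2, w3⟩, rfl⟩
      exact ⟨fun e => w1 (hι e), fun e => w2 (hι e), w3⟩
    rcases lt_or_gt_of_ne huv with h | h
    · exact key u v h
    · exact SA.RadVis.symm' (key v u h)

end Pool.Agent.Results.MP_f47cd5_co.CompleteArc
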